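import Pool.Agent.Helper96.BT.Defs
import Pool.Agent.Helper97.BT.Moment
import Pool.Agent.Helper76.BT.Four
import Pool.Agent.Helper74.NQ.Pairs
import Pool.Agent.Helper89.NK.Chain

/-!
# BT, piece M4: the bound in one orbit
-/

set_option autoImplicit false
set_option linter.unusedSectionVars false

namespace Pool.Agent.Helper64.BT

open Finset Pool.Agent.Helper19.NF Pool.Agent.Helper74.NW Pool.Agent.Helper96.BT
open Pool.Agent.Helper74.NE (fine fine_apply)
open Pool.Agent.Helper99.NQ (pos)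
open Pool.Agent.Helper74.NQ (card_filter_eq)
open Pool.Agent.Helper76.BT (lam_flip four)
open Pool.Agent.Helper97.BT (count)

variable {n D m : ℕ} [NeZero m] {F B W : Type} [Field F] [Fintype F] [AddCommGroup B] [AddCommGroup W]
  [Module F W] [Fintype W] [Fintype B] (enc : W →+ (Fin D × Fin m → B))

/-- The letters change additively. -/
theorem lam_add (g : Fin D → Equiv.Perm (Fin n)) (x y : Ch n m F W) (v : Fin n × Fin m) :
    lam enc g (x + y) v = lam enc g x v + lam enc g y v := by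
  unfold lam
  rw [← Finset.sum_add_distrib]
  refine Finset.sum_congr rfl fun c _ => ?_
  have : cont ((x + y) (fine g c v)) = cont (x (fine g c v)) + cont (y (fine g c v)) := by
    unfold cont
    rw [← Finset.sum_add_distrib]
    refine Finset.sum_congr rfl fun l _ => ?_
    rw [Pi.add_apply, Pi.add_apply, add_smul]
  rw [this, map_add, Pi.add_apply]

/-- The change of a letter as a homomorphism. -/
noncomputable def mor (F : Type) [Field F] [Module F W] (g : Fin D → Equiv.Perm (Fin n)) (h1 : Fin n → Fin D × Fin m)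
    (A : Finset (Fin n)) (v : Fin n × Fin m) : (Fin n → W) →+ B :=
  AddMonoidHom.mk' (fun b => lam enc g (Pool.Agent.Helper96.BT.flip (F := F) g h1 A b) v) fun a b => by
    rw [lam_flip, lam_flip, lam_flip, ← Finset.sum_add_distrib]
    refine Finset.sum_congr rfl fun c _ => ?_
    rw [← Finset.sum_add_distrib]
    refine Finset.sum_congr rfl fun u _ => ?_
    split_ifs
    · rw [Pi.add_apply, map_add, Pi.add_apply]
    · rw [add_zero]

theorem mor_apply (g : Fin D → Equiv.Perm (Fin n)) (h1 : Fin n → Fin D × Fin m)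
    (A : Finset (Fin n)) (v : Fin n × Fin m) (b : Fin n → W) :
    mor enc F g h1 A v b = lam enc g (Pool.Agent.Helper96.BT.flip (F := F) g h1 A b) v := rfl

theorem mor_four (hE : Mds enc (4 * D)) (g : Fin D → Equiv.Perm (Fin n)) (h1 : Fin n → Fin D × Fin m)
    (A : Finset (Fin n)) (q : {u // u ∈ A} → Finset (Fin m)) (hq : ∀ u, (q u).card ≤ 4)
    (z : {u // u ∈ A} → Fin m → B) :
    ∃ b : Fin n → W, ∀ u : {u // u ∈ A}, ∀ t ∈ q u, mor enc F g h1 A (u.1, t) b = z u t := by
  classical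
  obtain ⟨b, hb⟩ := four (F := F) enc hE g h1 A (fun u => if hu : u ∈ A then q ⟨u, hu⟩ else ∅)
    (fun u => by
      by_cases hu : u ∈ A
      · rw [dif_pos hu]
        exact hq _
      · rw [dif_neg hu]
        simp)
    (fun u t => if hu : u ∈ A then z ⟨u, hu⟩ t else 0)
  refine ⟨b, fun u t ht => ?_⟩
  have := hb u.1 u.2 t (by rw [dif_pos u.2]; exact ht)
  rw [dif_pos u.2] at this
  rw [mor_apply]
  exact this

open Classical in
/-- The number of the symbols of a block in `V`. -/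
theorem gap_eq (V : Finset (B × W)) (b : B) : (V.filter (fun p => p.1 = b)).card = gap V b := by
  unfold gap
  refine Finset.card_bij' (fun p _ => p.2) (fun l _ => (b, l)) ?_ ?_ ?_ ?_
  · intro p hp
    rw [mem_filter] at hp ⊢
    refine ⟨mem_univ _, ?_⟩
    rw [← hp.2]
    exact hp.1
  · intro l hl
    rw [mem_filter] at hl ⊢
    exact ⟨hl.2, rfl⟩
  · intro p hp
    rw [mem_filter] at hp
    exact Prod.ext hp.2.symm rfl
  · intro l _
    rfl

open Classical in
/-- The inner bound: the changes in the holes from one base point. -/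
theorem fixed_bound (hE : Mds enc (4 * D)) (g : Fin D → Equiv.Perm (Fin n)) (h1 h2 : Fin n → Fin D × Fin m)
    (t0 : Fin n × Fin m → B) (h e T : ℕ) (V1 V2 : Ch n m F W → Finset (B × W)) (A : Finset (Fin n)) (r : ℝ)
    (hr : 0 < r) (hrT : (T : ℝ) ≤ (1 - r) * Fintype.card (B × W))
    (hrh : (m * h + e * Fintype.card W : ℝ) ≤ m * Fintype.card W * r / 2) (x0 : Ch n m F W) :
    ((univ.filter (fun b : (Fin n → W) × (Fin n → W) =>
      Fintype.card (B × W) ≤
        (V1 (x0 + Pool.Agent.Helper96.BT.flip g h2 A b.2) ∩ V2 (x0 + Pool.Agent.Helper96.BT.flip g h1 A b.1)).card + T ∧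
      ∀ u ∈ A, (univ.filter (fun t => h ≤ gap
          (V1 (x0 + Pool.Agent.Helper96.BT.flip g h2 A b.2) ∩ V2 (x0 + Pool.Agent.Helper96.BT.flip g h1 A b.1))
          (t0 (u, t) + lam enc g (x0 + Pool.Agent.Helper96.BT.flip g h1 A b.1 +
            Pool.Agent.Helper96.BT.flip g h2 A b.2) (u, t)))).card ≤ e)).card : ℝ) ≤
      (4 * (m + 2) / (m * r) ^ 2) ^ A.card * (Fintype.card (Fin n → W) * Fintype.card (Fin n → W)) := by
  have hm : 0 < m := Nat.pos_of_ne_zero (NeZero.ne m)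
  haveI : Nonempty (Fin m) := ⟨⟨0, hm⟩⟩
  haveI : Nonempty W := ⟨0⟩
  have key := count (A := {u // u ∈ A}) (T := Fin m) (W := W) (K := B) (L1 := Fin n → W) (L2 := Fin n → W)
    (fun u t => mor enc F g h1 A (u.1, t)) (fun u t => mor enc F g h2 A (u.1, t))
    (fun u t => t0 (u.1, t) + lam enc g x0 (u.1, t))
    (fun q hq z => mor_four enc hE g h1 A q hq z) (fun q hq z => mor_four enc hE g h2 A q hq z)
    (fun b => V1 (x0 + Pool.Agent.Helper96.BT.flip g h2 A b)) (fun b => V2 (x0 + Pool.Agent.Helper96.BT.flip g h1 A b))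
    r hr (univ.filter (fun b : (Fin n → W) × (Fin n → W) =>
      Fintype.card (B × W) ≤
        (V1 (x0 + Pool.Agent.Helper96.BT.flip g h2 A b.2) ∩ V2 (x0 + Pool.Agent.Helper96.BT.flip g h1 A b.1)).card + T ∧
      ∀ u ∈ A, (univ.filter (fun t => h ≤ gap
          (V1 (x0 + Pool.Agent.Helper96.BT.flip g h2 A b.2) ∩ V2 (x0 + Pool.Agent.Helper96.BT.flip g h1 A b.1))
          (t0 (u, t) + lam enc g (x0 + Pool.Agent.Helper96.BT.flip g h1 A b.1 +
            Pool.Agent.Helper96.BT.flip g h2 A b.2) (u, t)))).card ≤ e)) ?_ ?_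
  · simpa only [Fintype.card_fin, Fintype.card_coe] using key
  · intro l hl
    rw [mem_filter] at hl
    have h3 := (Nat.cast_le (α := ℝ)).2 hl.2.1
    rw [Nat.cast_add] at h3
    rw [Fintype.card_prod, Nat.cast_mul] at h3 hrT
    nlinarith [h3, hrT]
  · intro l hl u
    rw [mem_filter] at hl
    have h3 := hl.2.2 u.1 u.2
    set V := V1 (x0 + Pool.Agent.Helper96.BT.flip g h2 A l.2) ∩ V2 (x0 + Pool.Agent.Helper96.BT.flip g h1 A l.1) with hV
    have h4 : ∀ t, ((V.filter (fun p => p.1 = t0 (u.1, t) + lam enc g x0 (u.1, t) + mor enc F g h1 A (u.1, t) l.1 +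
        mor enc F g h2 A (u.1, t) l.2)).card : ℝ) ≤
        h + if h ≤ gap V (t0 (u.1, t) + lam enc g (x0 + Pool.Agent.Helper96.BT.flip g h1 A l.1 +
            Pool.Agent.Helper96.BT.flip g h2 A l.2) (u.1, t)) then (Fintype.card W : ℝ) else 0 := by
      intro t
      have h5 : t0 (u.1, t) + lam enc g x0 (u.1, t) + mor enc F g h1 A (u.1, t) l.1 + mor enc F g h2 A (u.1, t) l.2 =
          t0 (u.1, t) + lam enc g (x0 + Pool.Agent.Helper96.BT.flip g h1 A l.1 +
            Pool.Agent.Helper96.BT.flip g h2 A l.2) (u.1, t) := by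
        rw [mor_apply, mor_apply, lam_add, lam_add]
        abel
      rw [h5, gap_eq]
      split_ifs with h6
      · have h7 : gap V (t0 (u.1, t) + lam enc g (x0 + Pool.Agent.Helper96.BT.flip g h1 A l.1 +
            Pool.Agent.Helper96.BT.flip g h2 A l.2) (u.1, t)) ≤ Fintype.card W := by
          unfold gap
          exact card_le_univ _
        have h8 := (Nat.cast_le (α := ℝ)).2 h7
        have h9 : (0 : ℝ) ≤ h := Nat.cast_nonneg _
        linarith
      · rw [add_zero]
        exact (Nat.cast_le (α := ℝ)).2 (not_le.1 h6).le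
    refine (sum_le_sum fun t _ => h4 t).trans ?_
    rw [sum_add_distrib, sum_const, card_univ, Fintype.card_fin, nsmul_eq_mul, ← sum_filter, sum_const, nsmul_eq_mul]
    refine le_trans ?_ hrh
    have h10 := (Nat.cast_le (α := ℝ)).2 h3
    have h11 : (0 : ℝ) ≤ Fintype.card W := Nat.cast_nonneg _
    gcongr

open Classical in
theorem flip_ne_zero {g : Fin D → Equiv.Perm (Fin n)} {h1 : Fin n → Fin D × Fin m} {A : Finset (Fin n)}
    {b : Fin n → W} {p : Fin n × Fin m} {l : W}
    (h : Pool.Agent.Helper96.BT.flip (F := F) g h1 A b p l ≠ 0) : ∃ u ∈ A, pos g h1 u = p ∧ b u = l := by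
  by_contra h3
  refine h ?_
  unfold Pool.Agent.Helper96.BT.flip
  refine Finset.sum_eq_zero fun u hu => ?_
  rw [if_neg]
  rintro ⟨h4, h5⟩
  exact h3 ⟨u, hu, h4, h5⟩

open Classical in
theorem card_choice (U : Fin n → Finset W) (A : Finset (Fin n)) (h : ℕ) (hU : ∀ v ∈ A, h ≤ (U v).card) :
    h ^ A.card * Fintype.card W ^ (n - A.card) ≤
      ((univ : Finset (Fin n → W)).filter fun b => ∀ v ∈ A, b v ∈ U v).card := by
  have h1 : Fintype.piFinset (fun v => if v ∈ A then U v else univ) ⊆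
      (univ : Finset (Fin n → W)).filter fun b => ∀ v ∈ A, b v ∈ U v := by
    intro b hb
    rw [mem_filter]
    refine ⟨mem_univ _, fun v hv => ?_⟩
    have h2 := Fintype.mem_piFinset.1 hb v
    rwa [if_pos hv] at h2
  refine le_trans ?_ (card_le_card h1)
  rw [Fintype.card_piFinset]
  have h3 : ∀ v : Fin n, (if v ∈ A then h else Fintype.card W) ≤ (if v ∈ A then U v else univ).card := by
    intro v
    split_ifs with hv
    · exact hU v hv
    · exact le_of_eq card_univ.symm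
  refine le_trans (le_of_eq ?_) (prod_le_prod' fun v _ => h3 v)
  rw [prod_ite, prod_const, prod_const]
  have h4 : (univ.filter (fun v => v ∈ A)) = A := by
    ext v
    simp
  have h5 : (univ.filter (fun v : Fin n => ¬ v ∈ A)).card = n - A.card := by
    have h6 : (univ.filter (fun v : Fin n => ¬ v ∈ A)) = Aᶜ := by
      ext v
      simp
    rw [h6, card_compl, Fintype.card_fin]
  rw [h4, h5]

open Classical in
/-- M4: the bound in one orbit. -/
theorem exact_bound (hE : Mds enc (4 * D)) (g : Fin D → Equiv.Perm (Fin n)) (h1 h2 : Fin n → Fin D × Fin m)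
    (cell t0 : Fin n × Fin m → B) (h e T : ℕ) (E E1 E2 : Finset (Ch n m F W))
    (V1 V2 : Ch n m F W → Finset (B × W)) (hE1 : E ⊆ E1) (hE2 : E ⊆ E2)
    (cl1 : ∀ x ∈ E1, ∀ x', (∀ p l, x' p l ≠ x p l → l ∈ left cell (V1 x) p) → x' ∈ E1 ∧ V1 x' = V1 x)
    (cl2 : ∀ x ∈ E2, ∀ x', (∀ p l, x' p l ≠ x p l → l ∈ left cell (V2 x) p) → x' ∈ E2 ∧ V2 x' = V2 x)
    (A : Finset (Fin n))
    (hT : ∀ x ∈ E, Fintype.card (B × W) ≤ (V1 x ∩ V2 x).card + T)
    (hfull : ∀ x ∈ E, ∀ u ∈ A,
      (univ.filter (fun t => h ≤ gap (V1 x ∩ V2 x) (t0 (u, t) + lam enc g x (u, t)))).card ≤ e)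
    (hJ1 : ∀ x ∈ E, ∀ u ∈ A, h ≤ (left cell (V1 x) (pos g h1 u)).card)
    (hJ2 : ∀ x ∈ E, ∀ u ∈ A, h ≤ (left cell (V2 x) (pos g h2 u)).card) (hh : 0 < h) (r : ℝ) (hr : 0 < r)
    (hrT : (T : ℝ) ≤ (1 - r) * Fintype.card (B × W))
    (hrh : (m * h + e * Fintype.card W : ℝ) ≤ m * Fintype.card W * r / 2) :
    (E.card : ℝ) ≤ (1 / ((h : ℝ) / Fintype.card W)) ^ (2 * A.card) *
      (4 * (m + 2) / (m * r) ^ 2) ^ A.card * Nat.card (Ch n m F W) := by
  set L := Fintype.card W with hL
  -- the changes for one point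
  let S1 : Ch n m F W → Finset (Fin n → W) := fun x =>
    univ.filter fun b => ∀ u ∈ A, b u ∈ left cell (V1 x) (pos g h1 u)
  let S2 : Ch n m F W → Finset (Fin n → W) := fun x =>
    univ.filter fun b => ∀ u ∈ A, b u ∈ left cell (V2 x) (pos g h2 u)
  let Q : Ch n m F W → Finset ((Fin n → W) × (Fin n → W)) := fun x0 =>
    univ.filter (fun b : (Fin n → W) × (Fin n → W) =>
      Fintype.card (B × W) ≤
        (V1 (x0 + Pool.Agent.Helper96.BT.flip g h2 A b.2) ∩ V2 (x0 + Pool.Agent.Helper96.BT.flip g h1 A b.1)).card + T ∧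
      ∀ u ∈ A, (univ.filter (fun t => h ≤ gap
          (V1 (x0 + Pool.Agent.Helper96.BT.flip g h2 A b.2) ∩ V2 (x0 + Pool.Agent.Helper96.BT.flip g h1 A b.1))
          (t0 (u, t) + lam enc g (x0 + Pool.Agent.Helper96.BT.flip g h1 A b.1 +
            Pool.Agent.Helper96.BT.flip g h2 A b.2) (u, t)))).card ≤ e)
  have hQ : ∀ x0, ((Q x0).card : ℝ) ≤ (4 * (m + 2) / (m * r) ^ 2) ^ A.card *
      (Fintype.card (Fin n → W) * Fintype.card (Fin n → W)) := fun x0 =>
    fixed_bound enc hE g h1 h2 t0 h e T V1 V2 A r hr hrT hrh x0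
  -- the injection
  have hinj : (E.sigma fun x => S1 x ×ˢ S2 x).card ≤ ((univ : Finset (Ch n m F W)).sigma Q).card := by
    refine card_le_card_of_injOn (fun z => ⟨z.1 - Pool.Agent.Helper96.BT.flip g h1 A z.2.1 -
      Pool.Agent.Helper96.BT.flip g h2 A z.2.2, (z.2.1, z.2.2)⟩) ?_ ?_
    · rintro ⟨x, b, b'⟩ hz
      rw [mem_coe, mem_sigma, mem_product, mem_filter, mem_filter] at hz
      obtain ⟨hx, ⟨-, h5⟩, -, h8⟩ := hz
      simp only at hx h5 h8
      rw [mem_coe, mem_sigma, mem_filter]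
      refine ⟨mem_univ _, mem_univ _, ?_⟩
      set f1 : Ch n m F W := Pool.Agent.Helper96.BT.flip g h1 A b with hf1
      set f2 : Ch n m F W := Pool.Agent.Helper96.BT.flip g h2 A b' with hf2
      have a1 : x - f1 - f2 + f2 = x - f1 := sub_add_cancel _ _
      have a2 : x - f1 - f2 + f1 = x - f2 := by
        rw [sub_right_comm, sub_add_cancel]
      have a3 : x - f1 - f2 + f1 + f2 = x := by
        rw [a2, sub_add_cancel]
      have c1 : V1 (x - f1) = V1 x := by
        refine (cl1 x (hE1 hx) _ ?_).2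
        intro p l hpl
        have h9 : f1 p l ≠ 0 := by
          intro h10
          refine hpl ?_
          rw [Pi.sub_apply, Pi.sub_apply, h10, sub_zero]
        obtain ⟨u, hu, h10, h11⟩ := flip_ne_zero h9
        have h14 := h5 u hu
        rw [← h10, ← h11]
        exact h14
      have c2 : V2 (x - f2) = V2 x := by
        refine (cl2 x (hE2 hx) _ ?_).2
        intro p l hpl
        have h9 : f2 p l ≠ 0 := by
          intro h10
          refine hpl ?_
          rw [Pi.sub_apply, Pi.sub_apply, h10, sub_zero]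
        obtain ⟨u, hu, h10, h11⟩ := flip_ne_zero h9
        have h14 := h8 u hu
        rw [← h10, ← h11]
        exact h14
      show _ ≤ (V1 (x - f1 - f2 + f2) ∩ V2 (x - f1 - f2 + f1)).card + T ∧
        ∀ u ∈ A, (univ.filter (fun t => h ≤ gap (V1 (x - f1 - f2 + f2) ∩ V2 (x - f1 - f2 + f1))
          (t0 (u, t) + lam enc g (x - f1 - f2 + f1 + f2) (u, t)))).card ≤ e
      rw [a3, a1, a2, c1, c2]
      exact ⟨hT x hx, hfull x hx⟩
    · rintro ⟨x, b, b'⟩ - ⟨y, c, c'⟩ - hzz
      simp only [Sigma.mk.injEq, Prod.mk.injEq, heq_eq_eq] at hzz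
      obtain ⟨h3, h4, h5⟩ := hzz
      subst h4 h5
      have h8 : x = y := by
        rw [sub_left_inj, sub_left_inj] at h3
        exact h3
      rw [h8]
  -- the counts
  have hS1 : ∀ x ∈ E, h ^ A.card * L ^ (n - A.card) ≤ (S1 x).card := fun x hx =>
    card_choice (fun u => left cell (V1 x) (pos g h1 u)) A h (hJ1 x hx)
  have hS2 : ∀ x ∈ E, h ^ A.card * L ^ (n - A.card) ≤ (S2 x).card := fun x hx =>
    card_choice (fun u => left cell (V2 x) (pos g h2 u)) A h (hJ2 x hx)
  have hlow : E.card * (h ^ A.card * L ^ (n - A.card)) ^ 2 ≤ (E.sigma fun x => S1 x ×ˢ S2 x).card := by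
    rw [card_sigma, ← smul_eq_mul, ← sum_const]
    refine sum_le_sum fun x hx => ?_
    rw [card_product, sq]
    exact Nat.mul_le_mul (hS1 x hx) (hS2 x hx)
  have hup : (((univ : Finset (Ch n m F W)).sigma Q).card : ℝ) ≤
      Fintype.card (Ch n m F W) * ((4 * (m + 2) / (m * r) ^ 2) ^ A.card * ((L : ℝ) ^ n) ^ 2) := by
    rw [card_sigma, Nat.cast_sum]
    have hcard : ((Fintype.card (Fin n → W) : ℝ) * Fintype.card (Fin n → W)) = ((L : ℝ) ^ n) ^ 2 := by
      rw [Fintype.card_fun, Fintype.card_fin]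
      push_cast
      ring
    calc ∑ x0 : Ch n m F W, ((Q x0).card : ℝ) ≤
          ∑ _x0 : Ch n m F W, (4 * (m + 2) / (m * r) ^ 2) ^ A.card * ((L : ℝ) ^ n) ^ 2 :=
          sum_le_sum fun x0 _ => by
            rw [← hcard]
            exact hQ x0
      _ = _ := by rw [sum_const, card_univ, nsmul_eq_mul]
  have hmain : (E.card : ℝ) * ((h : ℝ) ^ A.card * (L : ℝ) ^ (n - A.card)) ^ 2 ≤
      Fintype.card (Ch n m F W) * ((4 * (m + 2) / (m * r) ^ 2) ^ A.card * ((L : ℝ) ^ n) ^ 2) := by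
    refine le_trans ?_ hup
    have h3 := (Nat.cast_le (α := ℝ)).2 (hlow.trans hinj)
    push_cast at h3
    exact h3
  have hAn : A.card ≤ n := by
    have := card_le_univ A
    rwa [Fintype.card_fin] at this
  have hLpos : (0 : ℝ) < L := Nat.cast_pos.2 (Fintype.card_pos_iff.2 ⟨0⟩)
  have hhpos : (0 : ℝ) < h := Nat.cast_pos.2 hh
  have hLn : (L : ℝ) ^ n = (L : ℝ) ^ A.card * (L : ℝ) ^ (n - A.card) := by
    rw [← pow_add, Nat.add_sub_cancel' hAn]
  rw [hLn] at hmain
  have hLp : (0 : ℝ) < ((L : ℝ) ^ (n - A.card)) ^ 2 := by positivity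
  have hh2 : (0 : ℝ) < ((h : ℝ) ^ A.card) ^ 2 := by positivity
  have h4 : (E.card : ℝ) * ((h : ℝ) ^ A.card) ^ 2 ≤
      Fintype.card (Ch n m F W) * ((4 * (m + 2) / (m * r) ^ 2) ^ A.card * ((L : ℝ) ^ A.card) ^ 2) := by
    refine le_of_mul_le_mul_right ?_ hLp
    calc (E.card : ℝ) * ((h : ℝ) ^ A.card) ^ 2 * ((L : ℝ) ^ (n - A.card)) ^ 2 =
        (E.card : ℝ) * ((h : ℝ) ^ A.card * (L : ℝ) ^ (n - A.card)) ^ 2 := by ring
      _ ≤ _ := hmain
      _ = _ := by ring
  rw [← le_div_iff₀ hh2] at h4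
  refine h4.trans (le_of_eq ?_)
  have h5 : ((L : ℝ) / h) ^ (2 * A.card) = ((L : ℝ) ^ A.card) ^ 2 / ((h : ℝ) ^ A.card) ^ 2 := by
    rw [div_pow, pow_mul' (L : ℝ) 2 A.card, pow_mul' (h : ℝ) 2 A.card]
  rw [Nat.card_eq_fintype_card, one_div, inv_div, h5]
  ring

end Pool.Agent.Helper64.BT
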